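import Mathlib
import Pool.Agent.Y820.LB.Bridge

/-!
# Lehmer's problem for toral endomorphisms with an adapted inner product

For every `L` there is `μ > 1` such that the Mahler measure of the characteristic polynomial of an
integer matrix `A` of any size `n` is `1` or at least `μ` if there is a complex matrix `S` with
`‖S‖ ‖S⁻¹‖ ≤ L` such that `S⁻¹ A S` is, in an orthogonal decomposition of `ℂ ^ n`, the direct sum of a
contraction and of a matrix that does not decrease norms.

In other words: the topological entropy of the endomorphism of the torus defined by `A` is `0` or at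
least `log μ` if there is an inner product, of distortion at most `L` with respect to the standard
one, and an orthogonal `A`-invariant decomposition into a part on which `A` does not increase and a
part on which `A` does not decrease the norms.

Method.  For a contraction `W` the function `⟨v, (1 - z W)⁻¹ v⟩` has nonnegative real part in the
disc, so the integral of `log (1 + |⟨v, (1 - z W)⁻¹ v⟩|)` over the unit circle is at most
`log 2 + log (1 + ‖v‖ ²)`; by polarisation all matrix elements of the resolvent `(z - A)⁻¹` satisfy
such a bound, which depends on `L` only.  So the pair of a diagonal minor of `z - A` and the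
characteristic polynomial has bounded height.  The sum of the minors is the derivative of the
characteristic polynomial, hence some minor does not cancel a given zero outside the unit circle
completely, and for coprime pairs of bounded height Lehmer's inequality is known.
-/

set_option autoImplicit false

namespace Pool.Agent.Results.MP_dc0c68_nt.AdaptedMetrics

open Polynomial

noncomputable section

/-- The sum of the squares of the absolute values of the coordinates. -/
def sqNorm {n : ℕ} (x : Fin n → ℂ) : ℝ := ∑ i, ‖x i‖ ^ 2

/-- The condition number `‖S‖ ‖T‖` of a matrix `S` with inverse `T` is at most `L`. -/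
def CondLe (L : ℝ) {n : ℕ} (S T : Matrix (Fin n) (Fin n) ℂ) : Prop :=
  ∃ a b : ℝ, 0 ≤ a ∧ 0 ≤ b ∧ a * b ≤ L ∧ (∀ x, sqNorm (S.mulVec x) ≤ a ^ 2 * sqNorm x) ∧
    ∀ x, sqNorm (T.mulVec x) ≤ b ^ 2 * sqNorm x

/-- There is a matrix `S` with `‖S‖ ‖S⁻¹‖ ≤ L` such that `B = S⁻¹ A S` commutes with an orthogonal
projection `E`, does not increase norms on the range of `E` and does not decrease norms on the
orthogonal complement. -/
def IsAdapted (L : ℝ) {n : ℕ} (A : Matrix (Fin n) (Fin n) ℤ) : Prop :=
  ∃ S T B E : Matrix (Fin n) (Fin n) ℂ, S * T = 1 ∧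
    A.map (Int.castRingHom ℂ) = S * B * T ∧ CondLe L S T ∧
    E.conjTranspose = E ∧ E * E = E ∧ B * E = E * B ∧
    (∀ x, sqNorm ((B * E).mulVec x) ≤ sqNorm (E.mulVec x)) ∧
    (∀ x, sqNorm ((1 - E).mulVec x) ≤ sqNorm ((B * (1 - E)).mulVec x))

theorem result (L : ℝ) : ∃ μ : ℝ, 1 < μ ∧
    ∀ (n : ℕ) (A : Matrix (Fin n) (Fin n) ℤ), IsAdapted L A →
      (A.charpoly.map (Int.castRingHom ℂ)).mahlerMeasure = 1 ∨
        μ ≤ (A.charpoly.map (Int.castRingHom ℂ)).mahlerMeasure := by
  obtain ⟨c, hc, h⟩ := Pool.Agent.Y820.LB.adapted_gap L
  refine ⟨c, hc, ?_⟩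
  rintro n A ⟨S, T, B, E, h1, h2, ⟨a, b, ha, hb, hab, hS, hT⟩, h4, h5, h6, h7, h8⟩
  exact h n A S T B E
    (Pool.Agent.Y820.LB.ad_of L A S T B E a b h1 h2 ha hb hab hS hT h4 h5 h6 h7 h8)

end

end Pool.Agent.Results.MP_dc0c68_nt.AdaptedMetrics
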