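import Mathlib
import Pool.Agent.Y820.LB.Avg

/-!
# Lehmer's problem for polynomials with bounded residues

Let `g(z) = h(z) / z ^ m` be a nonconstant Laurent polynomial with integer coefficients (for example
`z` or `z + 1/z`), and let `L` be a real number.  There is `μ > 1` such that for all integer
polynomials `P`, `Q` with `deg Q < deg P`, `P` with simple zeros, for which the sum of
`|Q(a) / P'(a)|` over the zeros `a` of `P` is at most `L`: either `Q` vanishes at all zeros of `P` of
the form `g(z)`, `|z| > 1`, or the Mahler measure of `z ^ (m deg P) P(g(z))` is at least `μ`.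

With `Q = 1`: the Mahler measure of `P`, and that of `z ^ n P(z + 1/z)`, is at least `μ(L) > 1` or
`P`, respectively `P(z + 1/z)`, has no zero outside the unit circle, for all integer polynomials `P`
with simple zeros and `∑ 1 / |P'(a)| ≤ L`.  In terms of lattices: the numbers `Q(a) / P'(a)` are the
conjugates of the elements of the dual lattice of `ℤ[a]`, so Lehmer's inequality holds for all
algebraic integers `a` such that the dual lattice of `ℤ[a]` with respect to the trace form contains
a nonzero element of `ℓ¹`-norm at most `L`.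

Method.  If `F` is a sum of simple fractions `w / (z - a)` with `∑ |w| ≤ L` then the integral of
`log (1 + |F|)` over the unit circle is at most `8 (log 2 + log (1 + L))`, because for positive
weights and `|a| > 1` the function `1 + F` is, up to a trivial modification, zero-free in the disc.
The quotient `Q/P`, composed with `g` and multiplied by the derivative of `g`, is such a sum up to a
simple correction.  So the pair `(P, Q)`, composed with `g`, has bounded height, and for coprime
pairs of bounded height Lehmer's inequality is known.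
-/

set_option autoImplicit false

namespace Pool.Agent.Results.MP_dc0c68_nt.BoundedResidues

open Polynomial

theorem result (L : ℝ) (h : ℤ[X]) (m : ℕ) (hg : ∀ c : ℤ, h ≠ C c * X ^ m) :
    ∃ μ : ℝ, 1 < μ ∧ ∀ P Q : ℤ[X], Q.degree < P.degree →
      (P.map (Int.castRingHom ℂ)).roots.Nodup →
      ∑ a ∈ (P.map (Int.castRingHom ℂ)).roots.toFinset,
        ‖(Q.map (Int.castRingHom ℂ)).eval a‖ /
          ‖(derivative (P.map (Int.castRingHom ℂ))).eval a‖ ≤ L →
      (∀ z : ℂ, 1 < ‖z‖ →
        (P.map (Int.castRingHom ℂ)).eval ((h.map (Int.castRingHom ℂ)).eval z / z ^ m) = 0 →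
        (Q.map (Int.castRingHom ℂ)).eval ((h.map (Int.castRingHom ℂ)).eval z / z ^ m) = 0) ∨
      μ ≤ ((∑ k ∈ Finset.range (P.natDegree + 1),
        C (P.coeff k) * h ^ k * X ^ (m * (P.natDegree - k))).map
          (Int.castRingHom ℂ)).mahlerMeasure := by
  have hk := Pool.Agent.Y820.LB.kp_ne_of h m hg
  obtain ⟨c, hc, hc2, hgap⟩ := Pool.Agent.Y820.LB.pair_gap
    (Pool.Agent.Y820.LB.subC (Pool.Agent.H261R2.CM.toC h) m L)
  refine ⟨c, hc, ?_⟩
  intro P Q hdeg hnd hL
  by_cases hz : ∃ z : ℂ, 1 < ‖z‖ ∧
    (P.map (Int.castRingHom ℂ)).eval ((h.map (Int.castRingHom ℂ)).eval z / z ^ m) = 0 ∧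
    (Q.map (Int.castRingHom ℂ)).eval ((h.map (Int.castRingHom ℂ)).eval z / z ^ m) ≠ 0
  · obtain ⟨z, hz1, hPz, hQz⟩ := hz
    exact Or.inr (Pool.Agent.Y820.LB.res_gap h m hk L c hgap P Q hdeg hnd hL z hz1 hPz hQz)
  · push Not at hz
    exact Or.inl hz

end Pool.Agent.Results.MP_dc0c68_nt.BoundedResidues
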