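import Mathlib
import Pool.Agent.Y820.LB.Bridge

/-!
# Lehmer's problem for integer matrices with bounded eigenvector condition number

Let `g(z) = h(z) / z ^ m` be a nonconstant Laurent polynomial with integer coefficients (for example
`z` or `z + 1/z`), and let `L` be a real number.  There is `μ > 1` such that the Mahler measure of
`det (h - z ^ m A) = z ^ (m n) χ_A(g(z))` is `1` or at least `μ` for all integer matrices `A`, of all
sizes `n`, that are diagonalised by a complex matrix `S` with inverse `T` such that one of the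
following holds:

* `∑ j, |S i j| |T j i| ≤ L` for all `i`;
* the condition number `‖S‖ ‖T‖` is at most `L`;
* the characteristic polynomial of `A` is irreducible and the average over `i` of the sums
  `∑ j, |S i j| |T j i|` is at most `L`.

Normal matrices are the case of a unitary `S`, `L = 1`, in the second condition.

Method.  If `F` is a sum of simple fractions `w / (z - a)` with `∑ |w| ≤ L` then the integral of
`log (1 + |F|)` over the unit circle is at most `8 (log 2 + log (1 + L))`.  The quotient of a diagonal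
minor of `h - z ^ m A` and its determinant is `∑ w_j / (h(z) - d_j z ^ m)` with `∑ |w_j| ≤ L`, and
multiplied by `z h'(z) - m h(z)` it becomes a sum of this form up to a simple correction.  So the pair
of the minor and the determinant has bounded height.  The sum of the minors is, up to a factor, the
logarithmic derivative of the determinant, hence some minor does not cancel a given zero outside the
unit circle completely, and for coprime pairs of bounded height Lehmer's inequality is known.
-/

set_option autoImplicit false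

namespace Pool.Agent.Results.MP_dc0c68_nt.ConditionedMatrices

open Polynomial

noncomputable section

/-- The Mahler measure of an integer polynomial. -/
def mahler (P : ℤ[X]) : ℝ := (P.map (Int.castRingHom ℂ)).mahlerMeasure

/-- The polynomial `det (h - z ^ m A)`, which is `z ^ (m n) χ_A(h(z) / z ^ m)`. -/
def pencilDet {n : ℕ} (h : ℤ[X]) (m : ℕ) (A : Matrix (Fin n) (Fin n) ℤ) : ℤ[X] :=
  (h • (1 : Matrix (Fin n) (Fin n) ℤ[X]) - (X : ℤ[X]) ^ m • A.map (C : ℤ →+* ℤ[X])).det

/-- The sum of the squares of the absolute values of the coordinates. -/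
def sqNorm {n : ℕ} (x : Fin n → ℂ) : ℝ := ∑ i, ‖x i‖ ^ 2

/-- The condition number `‖S‖ ‖T‖` of a matrix `S` with inverse `T` is at most `L`. -/
def CondLe (L : ℝ) {n : ℕ} (S T : Matrix (Fin n) (Fin n) ℂ) : Prop :=
  ∃ a b : ℝ, 0 ≤ a ∧ 0 ≤ b ∧ a * b ≤ L ∧ (∀ x, sqNorm (S.mulVec x) ≤ a ^ 2 * sqNorm x) ∧
    ∀ x, sqNorm (T.mulVec x) ≤ b ^ 2 * sqNorm x

/-- The matrix `A` is diagonalised by a matrix `S` with inverse `T`, and the sums over `j` of
`|S i j| |T j i|` are at most `L` for all `i`, or the condition number `‖S‖ ‖T‖` is at most `L`, or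
the characteristic polynomial of `A` is irreducible and the average of these sums is at most `L`. -/
def WellConditioned (L : ℝ) {n : ℕ} (A : Matrix (Fin n) (Fin n) ℤ) : Prop :=
  ∃ (S T : Matrix (Fin n) (Fin n) ℂ) (d : Fin n → ℂ),
    S * T = 1 ∧ A.map (Int.castRingHom ℂ) = S * Matrix.diagonal d * T ∧
    ((∀ i, ∑ j, ‖S i j‖ * ‖T j i‖ ≤ L) ∨ CondLe L S T ∨
      (Irreducible A.charpoly ∧ ∑ i, ∑ j, ‖S i j‖ * ‖T j i‖ ≤ L * n))

theorem result (L : ℝ) (h : ℤ[X]) (m : ℕ) (hg : ∀ c : ℤ, h ≠ C c * X ^ m) :
    ∃ μ : ℝ, 1 < μ ∧ ∀ (n : ℕ) (A : Matrix (Fin n) (Fin n) ℤ), WellConditioned L A →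
      mahler (pencilDet h m A) = 1 ∨ μ ≤ mahler (pencilDet h m A) := by
  have hk := Pool.Agent.Y820.LB.kp_ne_of h m hg
  obtain ⟨c, hc, hc2, hgap⟩ := Pool.Agent.Y820.LB.pair_gap
    (Pool.Agent.Y820.LB.subC (Pool.Agent.H261R2.CM.toC h) m L)
  refine ⟨c, hc, ?_⟩
  rintro n A ⟨S, T, d, hST, hA, hcond⟩
  have hD : Pool.Agent.Y820.LB.Dg A S T d := ⟨hST, hA⟩
  rcases hcond with h1 | ⟨a, b, ha, hb, hab, hS, hT⟩ | ⟨h1, h2⟩
  · exact Pool.Agent.Y820.LB.matrix_gap h m hk L c hc2 hgap hD h1
  · exact Pool.Agent.Y820.LB.matrix_gap h m hk L c hc2 hgap hD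
      fun i => (Pool.Agent.Y820.LB.cond_le S T i).trans
        (Pool.Agent.Y820.LB.cond_le_of S T L a b ha hb hab hS hT)
  · exact Pool.Agent.Y820.LB.avg_gap h m hk L c hc2 hgap hD h1 h2

end

end Pool.Agent.Results.MP_dc0c68_nt.ConditionedMatrices
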