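import Mathlib
import Pool.Agent.Y642.LZ.J

/-!
# Irreducible polynomials with many zeros in local fields have Mahler measure above `M(L)`

Let `f` be an irreducible integer polynomial of degree `n` with `M(f) > 1`. Let `K_i` be finitely
many nonarchimedean local fields of characteristic zero over distinct primes `p_i`, with
ramification index `e_i` and residue field with `q_i` elements. Let `Y_i` be a finite set of zeros
of `f` in `K_i`, no two of which differ by a root of unity only, let `R_i` be the number of its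
elements, and let `J_i` be natural numbers (for instance `J_i = 1`). Put

* `S = ∑ R_i ^ 2 (log p_i / e_i) ∑_{j < J_i} 1 / ((q_i - 1) q_i ^ j)`,
* `W = ∑ J_i R_i log p_i / e_i`.

Then

* `k S ≤ W + n log (n k) + n k (k + 1) log M(f)` for all `k ≥ 1`, if `M(f) < 2`;
* if `S ^ 2 ≥ n ^ 2 (1 + log n) + n W`, then `M(f) ≥ 1.189 > M(L)`, where `L` is Lehmer's
  polynomial.

The condition on `S` holds as soon as `f` has about `√n (log n) ^ (1 / 4)` zeros in one of finitely
many fixed fields `K_i`.

The method: the conjugates of `α, α ^ 2, …, α ^ k` in `K_i` fall into few residue classes modulo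
each power of a uniformizer, so the product of their differences is divisible by a high power of
`p_i`; on the other hand it is bounded by Hadamard's inequality in terms of the Mahler measure. The
optimal choice of `k` gives Lehmer's bound with the sharp constant.
-/

set_option autoImplicit false

open Polynomial ValuativeRel

universe u v

namespace Pool.Agent.Results.MP_dc0c68_nt.ManyLocalZeros

/-- A nonarchimedean local field `K` of characteristic zero (in the sense of Mathlib) with the
prime number `p` below it and its ramification index `e`, so `p 𝒪 = 𝔪 ^ e`. -/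
structure Place : Type (u + 1) where
  p : ℕ
  hp : p.Prime
  K : Type u
  [fld : Field K]
  [val : ValuativeRel K]
  [top : TopologicalSpace K]
  [loc : IsNonarchimedeanLocalField K]
  [char0 : CharZero K]
  e : ℕ
  he : 1 ≤ e
  ram : Ideal.span {((p : ℕ) : 𝒪[K])} = 𝓂[K] ^ e

attribute [instance] Place.fld Place.val Place.top Place.loc Place.char0

/-- the number of elements of the residue field -/
noncomputable def Place.q (D : Place.{u}) : ℕ := Nat.card 𝓀[D.K]

/-- `Y` consists of zeros of `f`, and no two of its elements differ by a root of unity only -/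
def ZeroSet (f : ℤ[X]) {K : Type u} [Field K] (Y : Finset K) : Prop :=
  (∀ x ∈ Y, aeval x f = 0) ∧ ∀ x ∈ Y, ∀ y ∈ Y, ∀ m : ℕ, 1 ≤ m → x ^ m = y ^ m → x = y

/-- the sum `S` -/
noncomputable def sqSum {ι : Type v} [Fintype ι] (D : ι → Place.{u}) (J : ι → ℕ)
    (Y : ∀ i, Finset (D i).K) : ℝ :=
  ∑ i, ((Y i).card : ℝ) ^ 2 * (∑ j ∈ Finset.range (J i), 1 / (((D i).q - 1) * ((D i).q : ℝ) ^ j)) /
    (D i).e * Real.log (D i).p

/-- the sum `W` -/
noncomputable def linSum {ι : Type v} [Fintype ι] (D : ι → Place.{u}) (J : ι → ℕ)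
    (Y : ∀ i, Finset (D i).K) : ℝ :=
  ∑ i, (J i : ℝ) * (Y i).card / (D i).e * Real.log (D i).p

/-- the inequality for the first `k` powers, with `n` the degree and `M` the Mahler measure -/
def PowerIneq (n : ℕ) (M S W : ℝ) : Prop :=
  ∀ k : ℕ, 1 ≤ k → k * S ≤ W + n * Real.log (n * k) + n * k * (k + 1) * Real.log M

/-- Lehmer's polynomial -/
noncomputable def L : ℤ[X] := X ^ 10 + X ^ 9 - X ^ 7 - X ^ 6 - X ^ 5 - X ^ 4 - X ^ 3 + X + 1

/-- **Polynomials with many zeros in local fields have Mahler measure above `M(L)`.** -/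
theorem result (f : ℤ[X]) (hf : Irreducible f) (M : ℝ)
    (hM : M = (f.map (Int.castRingHom ℂ)).mahlerMeasure) (hM1 : 1 < M)
    (n : ℕ) (hn : n = f.natDegree) {ι : Type v} [Fintype ι] (D : ι → Place.{u})
    (hinj : Function.Injective fun i => (D i).p) (Y : ∀ i, Finset (D i).K)
    (hY : ∀ i, ZeroSet f (Y i)) (J : ι → ℕ) (S W : ℝ) (hS : S = sqSum D J Y)
    (hW : W = linSum D J Y) :
    (M < 2 → PowerIneq n M S W) ∧
    (n ^ 2 * (1 + Real.log n) + n * W ≤ S ^ 2 →
      1189 / 1000 ≤ M ∧ (L.map (Int.castRingHom ℂ)).mahlerMeasure < M) := by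
  subst hM hn
  have hinj' : Set.InjOn (fun i => (D i).p) (Finset.univ : Finset ι) := hinj.injOn
  let D' : ι → Pool.Agent.Y642.LZ.Place.{u} := fun i =>
    { p := (D i).p, hp := (D i).hp, K := (D i).K, e := (D i).e, he := (D i).he, ram := (D i).ram }
  have e1 : S = Pool.Agent.Y642.LZ.sqJ Finset.univ D' J (fun i => (Y i).card) := hS
  have e2 : W = Pool.Agent.Y642.LZ.linJ Finset.univ D' J (fun i => (Y i).card) := hW
  refine ⟨fun h2 k hk => ?_, fun h => ?_⟩
  · rw [e1, e2]
    exact Pool.Agent.Y642.LZ.all_sharp f hf hM1 h2 Finset.univ D' hinj' Y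
      (fun i _ => (hY i).1) (fun i _ => (hY i).2) J k hk
  · have h1 := Pool.Agent.Y642.LZ.sharp_lehmer f hf hM1 Finset.univ D' hinj' Y
      (fun i _ => (hY i).1) (fun i _ => (hY i).2) J e1 e2 h
    exact ⟨h1, lt_of_lt_of_le Pool.Agent.Y642.LZ.lehmer_value h1⟩

end Pool.Agent.Results.MP_dc0c68_nt.ManyLocalZeros
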